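import Pool.Agent.H30.Diam.Stubs2

/-! DIAM-26 (pure combinatorics for the K-S case). -/

namespace Pool.Agent.H29.Diam

open Finset Pool.Agent.H30.Diam

section
variable {V : Type} [DecidableEq V]

theorem card_sd (X Y : Finset V) : (symmDiff X Y).card + 2 * (X ∩ Y).card = X.card + Y.card := by
  have h1 : (symmDiff X Y).card = (X \ Y).card + (Y \ X).card := by
    have : symmDiff X Y = (X \ Y) ∪ (Y \ X) := rfl
    rw [this, Finset.card_union_of_disjoint]
    exact Finset.disjoint_left.2 fun a ha hb => (Finset.mem_sdiff.1 hb).2 (Finset.mem_sdiff.1 ha).1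
  have h2 := Finset.card_sdiff_add_card_inter X Y
  have h3 := Finset.card_sdiff_add_card_inter Y X
  rw [Finset.inter_comm Y X] at h3
  omega

theorem card_sd_mod (X Y : Finset V) : (symmDiff X Y).card % 2 = (X.card + Y.card) % 2 := by
  have := card_sd X Y; omega

theorem card_split {X S : Finset V} (T : Finset V) (hX : X ⊆ S) :
    (symmDiff X T).card = (symmDiff X (T ∩ S)).card + (T \ S).card := by
  rw [← Finset.card_union_of_disjoint]
  · congr 1
    ext w
    have := @hX w
    simp only [mem_symmDiff, mem_union, mem_inter, mem_sdiff]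
    tauto
  · refine Finset.disjoint_left.2 fun a ha hb => ?_
    have := @hX a
    simp only [mem_symmDiff, mem_inter, mem_sdiff] at ha hb
    tauto

end

theorem ksfin : S_ksfin := by
  intro V _ Q D L hQ hD hL hz hq
  set T := symmDiff L D with hT
  have hz' : ∀ z ∈ Q, (symmDiff {z} T).card ≤ 2 + L.card := by
    intro z hz1; have := hz z hz1; rwa [symmDiff_assoc] at this
  have hq' : (symmDiff Q T).card ≤ 2 + L.card := by rwa [symmDiff_assoc] at hq
  have hDT : D = symmDiff T L := by
    rw [hT, symmDiff_comm L D, symmDiff_symmDiff_cancel_right]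
  set s := T ∩ Q with hs
  set r := T \ Q with hr
  have hsQ : s ⊆ Q := Finset.inter_subset_right
  have hs3 : s.card ≤ 3 := hQ ▸ Finset.card_le_card hsQ
  have hTsr : T.card = s.card + r.card := by
    have h : r.card + s.card = T.card := Finset.card_sdiff_add_card_inter T Q
    omega
  have hTpar : (T.card) % 2 = (L.card + D.card) % 2 := card_sd_mod L D
  -- the criterion
  have hX : ∀ X : Finset V, X ⊆ Q → (X = Q ∨ ∃ z ∈ Q, X = {z}) →
      (symmDiff X s).card + r.card ≤ 2 + L.card := by
    intro X hXQ h
    rw [← card_split T hXQ]
    rcases h with h | ⟨z, hzQ, h⟩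
    · rw [h]; exact hq'
    · rw [h]; exact hz' z hzQ
  rcases Nat.even_or_odd s.card with he | ho
  · -- even case
    have hX1 := hX (Q \ s) Finset.sdiff_subset (by
      have h1 : (Q \ s).card = 3 - s.card := by rw [Finset.card_sdiff_of_subset hsQ, hQ]
      rcases Nat.eq_zero_or_pos s.card with h0 | h0
      · left; rw [Finset.card_eq_zero.1 h0, Finset.sdiff_empty]
      · right
        have h2 : s.card = 2 := by
          obtain ⟨k, hk⟩ := he; omega
        obtain ⟨z, hz1⟩ := Finset.card_eq_one.1 (by omega : (Q \ s).card = 1)
        refine ⟨z, ?_, hz1⟩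
        have : z ∈ Q \ s := by rw [hz1]; exact Finset.mem_singleton_self z
        exact (Finset.mem_sdiff.1 this).1)
    have h3 : symmDiff (Q \ s) s = Q := by
      ext w
      have := @hsQ w
      simp only [mem_symmDiff, mem_sdiff]
      tauto
    rw [h3, hQ] at hX1
    have hr0 : r.card = 0 := by omega
    have hL1 : L.card = 1 := by omega
    obtain ⟨v, hv⟩ := Finset.card_eq_one.1 hL1
    left
    refine ⟨s, v, hsQ, he, ?_⟩
    have hTs : T = s := by
      rw [Finset.card_eq_zero] at hr0
      rw [hs]; symm
      rw [Finset.inter_eq_left]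
      exact Finset.sdiff_eq_empty_iff_subset.1 hr0
    rw [hDT, hv, hTs]
  · -- odd case
    have hodd : s.card % 2 = 1 := Nat.odd_iff.1 ho
    have hrL : r.card ≤ L.card := by
      rcases (by omega : s.card = 1 ∨ s.card = 3) with h1 | h3
      · have := hX Q (le_refl _) (Or.inl rfl)
        have h4 := card_sd Q s
        rw [Finset.inter_eq_right.2 hsQ] at h4
        omega
      · have hsq : s = Q := Finset.eq_of_subset_of_card_le hsQ (by omega)
        obtain ⟨z, hz1⟩ : Q.Nonempty := Finset.card_pos.1 (by omega)
        have := hX {z} (by simpa using hz1) (Or.inr ⟨z, hz1, rfl⟩)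
        have h4 := card_sd {z} s
        have h5 : ({z} ∩ s : Finset V).card ≤ 1 := by
          calc _ ≤ ({z} : Finset V).card := Finset.card_le_card Finset.inter_subset_left
            _ = 1 := Finset.card_singleton z
        rw [Finset.card_singleton] at h4
        omega
    obtain ⟨x, hx⟩ : s.Nonempty := Finset.card_pos.1 (by omega)
    have hA : s.erase x ⊆ Q := (Finset.erase_subset _ _).trans hsQ
    have hAe : Even (s.erase x).card := by
      rw [Finset.card_erase_of_mem hx]
      exact Nat.Odd.sub_odd ho odd_one
    have hAx : symmDiff (s.erase x) {x} = s := by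
      ext w
      simp only [mem_symmDiff, mem_erase, mem_singleton]
      by_cases hw : w = x
      · subst hw; simp [hx]
      · simp [hw]
    have hTu : ∀ w, w ∈ T ↔ w ∈ s ∨ w ∈ r := by
      intro w; simp only [hs, hr, mem_inter, mem_sdiff]; tauto
    rcases (by omega : L.card = 0 ∨ L.card = 1) with h0 | h1
    · left
      refine ⟨s.erase x, x, hA, hAe, ?_⟩
      have hr0 : r = ∅ := Finset.card_eq_zero.1 (by omega)
      rw [hAx, hDT, Finset.card_eq_zero.1 h0]
      ext w
      simp [hTu w, hr0, mem_symmDiff]
    · have hr1 : r.card = 1 := by omega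
      obtain ⟨v, hv⟩ := Finset.card_eq_one.1 h1
      obtain ⟨y, hy⟩ := Finset.card_eq_one.1 hr1
      have hyr : y ∈ r := by rw [hy]; exact Finset.mem_singleton_self y
      have hyQ : y ∉ Q := (Finset.mem_sdiff.1 hyr).2
      have hys : y ∉ s := fun h => hyQ (hsQ h)
      by_cases hvy : v = y
      · left
        refine ⟨s.erase x, x, hA, hAe, ?_⟩
        rw [hAx, hDT, hv, hvy]
        ext w
        simp only [mem_symmDiff, hTu w, hy, mem_singleton]
        by_cases hw : w = y
        · subst hw; simp [hys]
        · simp [hw]
      · by_cases hvQ : v ∈ Q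
        · left
          refine ⟨symmDiff s {v}, y, ?_, ?_, ?_⟩
          · intro w hw
            simp only [mem_symmDiff, mem_singleton] at hw
            rcases hw with hw | hw
            · exact hsQ hw.1
            · exact hw.1 ▸ hvQ
          · rw [Nat.even_iff, card_sd_mod, Finset.card_singleton]; omega
          · rw [hDT, hv]
            ext w
            simp only [mem_symmDiff, hTu w, hy, mem_singleton]
            by_cases hw : w = y
            · subst hw
              have : ¬ w = v := fun h => hvy h.symm
              simp [hys, this]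
            · simp [hw]
        · right
          refine ⟨y, v, s.erase x, x, hyQ, hvQ, fun h => hvy h.symm, hA, hAe, ?_, Or.inr hv⟩
          rw [hAx, hDT, hv]
          have hvs : v ∉ s := fun h => hvQ (hsQ h)
          ext w
          simp only [mem_symmDiff, hTu w, hy, mem_singleton, mem_insert]
          by_cases hw : w = y
          · subst hw
            have : ¬ w = v := fun h => hvy h.symm
            simp [hys, this]
          · by_cases hw2 : w = v
            · subst hw2
              simp [hvs, hvy]
            · simp [hw, hw2]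

end Pool.Agent.H29.Diam
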