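import Pool.Agent.H29.Diam.Ksfin

/-! DIAM-29 (pure combinatorics for the K-K case). -/

namespace Pool.Agent.H29.Diam

open Finset Pool.Agent.H30.Diam

section
variable {V : Type} [DecidableEq V]

/-- decomposition of even subsets of `Q ∪ Q'` when `Q ∩ Q' ≠ ∅`. -/
theorem decomp {Q Q' e : Finset V} {p : V} (hp : p ∈ Q) (hp' : p ∈ Q') (he : e ⊆ Q ∪ Q')
    (hev : Even e.card) :
    ∃ A A', A ⊆ Q ∧ Even A.card ∧ A' ⊆ Q' ∧ Even A'.card ∧ symmDiff A A' = e := by
  have h1 : (e \ Q).card + (e ∩ Q).card = e.card := Finset.card_sdiff_add_card_inter e Q
  have hsub : e \ Q ⊆ Q' := by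
    intro w hw
    have h2 := Finset.mem_sdiff.1 hw
    rcases Finset.mem_union.1 (he h2.1) with h | h
    · exact absurd h h2.2
    · exact h
  have hsum : symmDiff (e ∩ Q) (e \ Q) = e := by
    ext w; simp only [mem_symmDiff, mem_inter, mem_sdiff]; tauto
  rcases Nat.even_or_odd (e ∩ Q).card with h | h
  · refine ⟨e ∩ Q, e \ Q, Finset.inter_subset_right, h, hsub, ?_, hsum⟩
    rw [Nat.even_iff] at *; omega
  · refine ⟨symmDiff (e ∩ Q) {p}, symmDiff (e \ Q) {p}, ?_, ?_, ?_, ?_, ?_⟩
    · intro w hw
      simp only [mem_symmDiff, mem_inter, mem_singleton] at hw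
      rcases hw with hw | hw
      · exact hw.1.2
      · exact hw.1 ▸ hp
    · rw [Nat.even_iff, card_sd_mod, Finset.card_singleton]; rw [Nat.odd_iff] at h; omega
    · intro w hw
      simp only [mem_symmDiff, mem_singleton] at hw
      rcases hw with hw | hw
      · exact hsub hw.1
      · exact hw.1 ▸ hp'
    · rw [Nat.even_iff, card_sd_mod, Finset.card_singleton]; rw [Nat.odd_iff] at h
      rw [Nat.even_iff] at hev; omega
    · rw [symmDiff_symmDiff_symmDiff_comm, symmDiff_self]
      rw [hsum]; simp

/-- from a 3-set: an even `A ⊆ Q` with `|s △ A| ≥ 2`. -/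
theorem two_le {Q s : Finset V} (hQ : Q.card = 3) (hs : s ⊆ Q) :
    ∃ A, A ⊆ Q ∧ Even A.card ∧ 2 ≤ (symmDiff A s).card := by
  have hs3 : s.card ≤ 3 := hQ ▸ Finset.card_le_card hs
  rcases Nat.even_or_odd s.card with h | h
  · obtain ⟨x, hx⟩ : Q.Nonempty := Finset.card_pos.1 (by omega)
    have h1 : (Q.erase x).card = 2 := by rw [Finset.card_erase_of_mem hx]; omega
    refine ⟨symmDiff (Q.erase x) s, ?_, ?_, ?_⟩
    · intro w hw
      simp only [mem_symmDiff, mem_erase] at hw
      rcases hw with hw | hw
      · exact hw.1.2
      · exact hs hw.1
    · rw [Nat.even_iff, card_sd_mod]; rw [Nat.even_iff] at h; omega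
    · rw [symmDiff_symmDiff_cancel_right]; omega
  · refine ⟨symmDiff Q s, ?_, ?_, ?_⟩
    · intro w hw
      simp only [mem_symmDiff] at hw
      rcases hw with hw | hw
      · exact hw.1
      · exact hs hw.1
    · rw [Nat.even_iff, card_sd_mod]; rw [Nat.odd_iff] at h; omega
    · rw [symmDiff_symmDiff_cancel_right]; omega

end

theorem mfin : S_mfin := by
  intro V _ Q Q' D hQ hQ' hD hyp
  set E := symmDiff (symmDiff Q Q') D with hE
  have hEpar : E.card % 2 = 1 := by
    rw [hE, card_sd_mod]
    have := card_sd_mod Q Q'
    omega
  have hyp' : ∀ A ⊆ Q, Even A.card → ∀ A' ⊆ Q', Even A'.card →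
      (symmDiff (symmDiff A A') E).card ≤ 3 := by
    intro A hA hAe A' hA' hAe'
    have h := hyp A hA hAe A' hA' hAe'
    have h1 : Q \ A = symmDiff Q A := by
      ext w; have := @hA w; simp only [mem_symmDiff, mem_sdiff]; tauto
    have h2 : Q' \ A' = symmDiff Q' A' := by
      ext w; have := @hA' w; simp only [mem_symmDiff, mem_sdiff]; tauto
    rw [h1, h2] at h
    have h3 : symmDiff (symmDiff (symmDiff Q A) (symmDiff Q' A')) D =
        symmDiff (symmDiff A A') E := by
      rw [hE, symmDiff_symmDiff_symmDiff_comm Q A Q' A', symmDiff_comm (symmDiff Q Q') (symmDiff A A'),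
        symmDiff_assoc]
    rwa [h3] at h
  set S := Q ∪ Q' with hS
  have hcap : S.card + (Q ∩ Q').card = 6 := by
    rw [hS, Finset.card_union_add_card_inter]; omega
  have hcap3 : (Q ∩ Q').card ≤ 3 := hQ ▸ Finset.card_le_card Finset.inter_subset_left
  rcases Finset.eq_empty_or_nonempty (Q ∩ Q') with hemp | ⟨p, hp⟩
  · -- disjoint triangles: contradiction
    exfalso
    obtain ⟨A, hA, hAe, hA2⟩ := two_le hQ (Finset.inter_subset_right : E ∩ Q ⊆ Q)
    obtain ⟨A', hA', hAe', hA2'⟩ := two_le hQ' (Finset.inter_subset_right : E ∩ Q' ⊆ Q')
    have h := hyp' A hA hAe A' hA' hAe'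
    have hsub : symmDiff A (E ∩ Q) ∪ symmDiff A' (E ∩ Q') ⊆ symmDiff (symmDiff A A') E := by
      intro w hw
      have a1 := @hA w
      have a2 := @hA' w
      have a3 : ¬ (w ∈ Q ∧ w ∈ Q') := by
        intro hh
        have : w ∈ Q ∩ Q' := Finset.mem_inter.2 hh
        rw [hemp] at this
        exact absurd this (Finset.notMem_empty w)
      simp only [mem_union, mem_symmDiff, mem_inter] at hw ⊢
      tauto
    have hdis : Disjoint (symmDiff A (E ∩ Q)) (symmDiff A' (E ∩ Q')) := by
      refine Finset.disjoint_left.2 fun w h1 h2 => ?_
      have a1 := @hA w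
      have a2 := @hA' w
      have a3 : ¬ (w ∈ Q ∧ w ∈ Q') := by
        intro hh
        have : w ∈ Q ∩ Q' := Finset.mem_inter.2 hh
        rw [hemp] at this
        exact absurd this (Finset.notMem_empty w)
      simp only [mem_symmDiff, mem_inter] at h1 h2
      tauto
    have h5 := Finset.card_le_card hsub
    rw [Finset.card_union_of_disjoint hdis] at h5
    omega
  · have hpQ := (Finset.mem_inter.1 hp).1
    have hpQ' := (Finset.mem_inter.1 hp).2
    have hEv : ∀ e ⊆ S, Even e.card → (symmDiff e E).card ≤ 3 := by
      intro e he hev
      obtain ⟨A, A', hA, hAe, hA', hAe', rfl⟩ := decomp hpQ hpQ' he hev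
      exact hyp' A hA hAe A' hA' hAe'
    set s := E ∩ S with hs
    set r := E \ S with hr
    have hsS : s ⊆ S := Finset.inter_subset_right
    have hrs : r.card + s.card = E.card := Finset.card_sdiff_add_card_inter E S
    have hsle : s.card ≤ S.card := Finset.card_le_card hsS
    -- maximal sets
    have hmax : ∀ X ⊆ S, Even (X.card + s.card) → X.card + r.card ≤ 3 := by
      intro X hX hev
      have hsub : symmDiff X s ⊆ S := by
        intro w hw
        simp only [mem_symmDiff] at hw
        rcases hw with hw | hw
        · exact hX hw.1
        · exact hsS hw.1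
      have h := hEv (symmDiff X s) hsub (by
        rw [Nat.even_iff, card_sd_mod]; exact Nat.even_iff.1 hev)
      rw [card_split E hsub, ← hs, ← hr, symmDiff_symmDiff_cancel_right] at h
      exact h
    have hDE : D = symmDiff (symmDiff Q Q') E := by
      rw [hE, symmDiff_symmDiff_cancel_left]
    have hEu : ∀ w, w ∈ E ↔ w ∈ s ∨ w ∈ r := by
      intro w; simp only [hs, hr, mem_inter, mem_sdiff]; tauto
    obtain ⟨x0, hx0⟩ : S.Nonempty := ⟨p, Finset.mem_union_left _ hpQ⟩
    have herase : (S.erase x0).card = S.card - 1 := Finset.card_erase_of_mem hx0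
    rcases Nat.even_or_odd (S.card + s.card) with hpar | hpar
    · -- |s| ≡ |S|: |S| + |r| ≤ 3, so Q = Q', r = ∅
      have h1 := hmax S (le_refl _) hpar
      have hc3 : (Q ∩ Q').card = 3 := by omega
      have hS3 : S.card = 3 := by omega
      have hr0 : r = ∅ := Finset.card_eq_zero.1 (by omega)
      have hQQ : Q = Q' := by
        have e1 : Q ∩ Q' = Q := Finset.eq_of_subset_of_card_le Finset.inter_subset_left (by omega)
        have e2 : Q ∩ Q' = Q' := Finset.eq_of_subset_of_card_le Finset.inter_subset_right (by omega)
        rw [← e1]; exact e2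
      subst hQQ
      have hSQ : S = Q := by rw [hS, Finset.union_self]
      have hDs : D = s := by
        rw [hDE, symmDiff_self]
        ext w
        simp [mem_symmDiff, hEu w, hr0]
      rw [hSQ] at hsS
      refine ⟨fun A => symmDiff A (symmDiff D {p}), ?_, ?_⟩
      · intro A hA hAe
        refine ⟨?_, ?_, ?_⟩
        · intro w hw
          by_contra hwQ
          have a1 : w ∉ A := fun h => hwQ (hA h)
          have a2 : w ∉ D := fun h => hwQ (hsS (hDs ▸ h))
          have a3 : w ≠ p := fun h => hwQ (h ▸ hpQ)
          simp [mem_symmDiff, a1, a2, a3] at hw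
        · have c1 := card_sd_mod A (symmDiff D {p})
          have c2 := card_sd_mod D {p}
          rw [Finset.card_singleton] at c2
          show Even (symmDiff A (symmDiff D {p})).card
          rw [Nat.even_iff] at hAe ⊢
          omega
        · have : symmDiff (symmDiff A (symmDiff A (symmDiff D {p}))) D = {p} := by
            rw [symmDiff_symmDiff_cancel_left, symmDiff_comm D {p}, symmDiff_symmDiff_cancel_right]
          rw [this, Finset.card_singleton]
      · intro A _ _ B _ _ h
        exact symmDiff_left_injective _ h
    · -- |s| ≢ |S|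
      have h1 := hmax (S.erase x0) (Finset.erase_subset _ _) (by
        rw [Nat.even_iff]; rw [Nat.odd_iff] at hpar
        have : 0 < S.card := Finset.card_pos.2 ⟨x0, hx0⟩
        omega)
      have hodd : (S.card + s.card) % 2 = 1 := Nat.odd_iff.1 hpar
      rcases (by omega : S.card = 3 ∨ S.card = 4) with hS3 | hS4
      · -- Q = Q', |s| even, |r| = 1
        have hc3 : (Q ∩ Q').card = 3 := by omega
        have hr1 : r.card = 1 := by omega
        have hQQ : Q = Q' := by
          have e1 : Q ∩ Q' = Q := Finset.eq_of_subset_of_card_le Finset.inter_subset_left (by omega)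
          have e2 : Q ∩ Q' = Q' := Finset.eq_of_subset_of_card_le Finset.inter_subset_right (by omega)
          rw [← e1]; exact e2
        subst hQQ
        have hSQ : S = Q := by rw [hS, Finset.union_self]
        have hDE' : D = E := by
          rw [hDE, symmDiff_self]; simp
        rw [hSQ] at hsS
        refine ⟨fun A => symmDiff A s, ?_, ?_⟩
        · intro A hA hAe
          refine ⟨?_, ?_, ?_⟩
          · intro w hw
            by_contra hwQ
            have a1 : w ∉ A := fun h => hwQ (hA h)
            have a2 : w ∉ s := fun h => hwQ (hsS h)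
            simp [mem_symmDiff, a1, a2] at hw
          · have c1 := card_sd_mod A s
            show Even (symmDiff A s).card
            rw [Nat.even_iff] at hAe ⊢
            omega
          · have : symmDiff (symmDiff A (symmDiff A s)) D = r := by
              rw [symmDiff_symmDiff_cancel_left, hDE']
              ext w
              simp only [mem_symmDiff, hs, hr, mem_inter, mem_sdiff]
              tauto
            rw [this, hr1]
        · intro A _ _ B _ _ h
          exact symmDiff_left_injective _ h
      · -- |Q ∩ Q'| = 2, r = ∅, |s| odd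
        have hc2 : (Q ∩ Q').card = 2 := by omega
        have hr0 : r = ∅ := Finset.card_eq_zero.1 (by omega)
        have hEs : E = s := by
          ext w
          simp [hEu w, hr0]
        -- the fourth point
        have hq' : (Q' \ Q).card = 1 := by
          have := Finset.card_sdiff_add_card_inter Q' Q
          rw [Finset.inter_comm] at this; omega
        have hq : (Q \ Q').card = 1 := by
          have := Finset.card_sdiff_add_card_inter Q Q'
          omega
        obtain ⟨c, hc⟩ := Finset.card_eq_one.1 hq
        obtain ⟨c', hc'⟩ := Finset.card_eq_one.1 hq'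
        have hcm : c ∈ Q \ Q' := by rw [hc]; exact Finset.mem_singleton_self c
        have hcm' : c' ∈ Q' \ Q := by rw [hc']; exact Finset.mem_singleton_self c'
        rw [Finset.mem_sdiff] at hcm hcm'
        have hQm : ∀ w, w ∈ Q ↔ w ∈ Q ∩ Q' ∨ w = c := by
          intro w
          have : w ∈ Q \ Q' ↔ w = c := by rw [hc]; exact Finset.mem_singleton
          rw [Finset.mem_sdiff] at this
          rw [Finset.mem_inter]
          tauto
        have hQm' : ∀ w, w ∈ Q' ↔ w ∈ Q ∩ Q' ∨ w = c' := by
          intro w
          have : w ∈ Q' \ Q ↔ w = c' := by rw [hc']; exact Finset.mem_singleton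
          rw [Finset.mem_sdiff] at this
          rw [Finset.mem_inter]
          tauto
        have hcc : c ≠ c' := fun h => hcm.2 (h ▸ hcm'.1)
        have hcP : c ∉ Q ∩ Q' := fun h => hcm.2 (Finset.mem_inter.1 h).2
        have hcP' : c' ∉ Q ∩ Q' := fun h => hcm'.2 (Finset.mem_inter.1 h).1
        set P := Q ∩ Q' with hP
        -- D ⊆ S, odd
        have hDS : D ⊆ S := by
          intro w hw
          rw [hDE] at hw
          simp only [mem_symmDiff] at hw
          rw [hS, Finset.mem_union]
          by_contra hcon
          push Not at hcon
          have : w ∉ E := by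
            rw [hEs]; intro h
            have := hsS h
            rw [hS, Finset.mem_union] at this
            tauto
          tauto
        -- splitting a subset of S
        have hsplit : ∀ X ⊆ S, X.card = (X ∩ P).card + (if c ∈ X then 1 else 0) +
            (if c' ∈ X then 1 else 0) := by
          intro X hX
          have e1 : X = (X ∩ P) ∪ ((X ∩ {c}) ∪ (X ∩ {c'})) := by
            ext w
            have a1 := @hX w
            rw [hS, Finset.mem_union, hQm w, hQm' w] at a1
            simp only [mem_union, mem_inter, mem_singleton]
            constructor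
            · intro h
              rcases a1 h with (h1 | h1) | (h1 | h1)
              · exact Or.inl ⟨h, h1⟩
              · exact Or.inr (Or.inl ⟨h, h1⟩)
              · exact Or.inl ⟨h, h1⟩
              · exact Or.inr (Or.inr ⟨h, h1⟩)
            · tauto
          have e2 : Disjoint (X ∩ {c}) (X ∩ {c'}) := by
            refine Finset.disjoint_left.2 fun w h1 h2 => ?_
            simp only [mem_inter, mem_singleton] at h1 h2
            exact hcc (h1.2 ▸ h2.2)
          have e3 : Disjoint (X ∩ P) ((X ∩ {c}) ∪ (X ∩ {c'})) := by
            refine Finset.disjoint_left.2 fun w h1 h2 => ?_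
            have h1' := (Finset.mem_inter.1 h1).2
            simp only [mem_union, mem_inter, mem_singleton] at h2
            rcases h2 with h2 | h2
            · exact hcP (h2.2 ▸ h1')
            · exact hcP' (h2.2 ▸ h1')
          have e4 : ∀ z, (X ∩ {z}).card = if z ∈ X then 1 else 0 := by
            intro z
            by_cases hz : z ∈ X
            · rw [Finset.inter_singleton_of_mem hz, if_pos hz, Finset.card_singleton]
            · rw [Finset.inter_singleton_of_notMem hz, if_neg hz, Finset.card_empty]
          calc X.card = ((X ∩ P) ∪ ((X ∩ {c}) ∪ (X ∩ {c'}))).card := congrArg _ e1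
            _ = _ := by
              rw [Finset.card_union_of_disjoint e3, Finset.card_union_of_disjoint e2, e4, e4]
              omega
        classical
        -- the map
        let φ : Finset V → Finset V := fun A =>
          ((symmDiff A D) ∩ P) ∪ (if ((symmDiff A D) ∩ P).card % 2 = 1 then {c'} else ∅)
        have hφP : ∀ A, φ A ∩ P = (symmDiff A D) ∩ P := by
          intro A
          simp only [φ]
          ext w
          split_ifs with hh
          · simp only [mem_inter, mem_union, mem_singleton]
            constructor
            · rintro ⟨h1 | h1, h2⟩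
              · exact h1
              · exact absurd (h1 ▸ h2) hcP'
            · intro h; exact ⟨Or.inl h, h.2⟩
          · simp only [mem_inter, mem_union, Finset.notMem_empty, or_false]
            tauto
        refine ⟨φ, ?_, ?_⟩
        · intro A hA hAe
          set B := symmDiff A D with hB
          have hBS : B ⊆ S := by
            intro w hw
            simp only [hB, mem_symmDiff] at hw
            rcases hw with hw | hw
            · exact Finset.mem_union_left _ (hA hw.1)
            · exact hDS hw.1
          have hBpar : B.card % 2 = 1 := by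
            have := card_sd_mod A D
            rw [Nat.even_iff] at hAe
            rw [hB]; omega
          have hφQ : φ A ⊆ Q' := by
            intro w hw
            simp only [φ, ← hB, mem_union] at hw
            rcases hw with hw | hw
            · exact (Finset.mem_inter.1 ((Finset.mem_inter.1 hw).2)).2
            · split_ifs at hw with hh
              · rw [Finset.mem_singleton] at hw; rw [hw]; exact hcm'.1
              · exact absurd hw (Finset.notMem_empty w)
          have hφS : φ A ⊆ S := hφQ.trans Finset.subset_union_right
          have hφc : c ∉ φ A := fun h => hcm.2 (hφQ h)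
          have hφc' : c' ∈ φ A ↔ (B ∩ P).card % 2 = 1 := by
            simp only [φ, ← hB, mem_union]
            split_ifs with hh
            · simp [hh]
            · simp only [Finset.notMem_empty, or_false, hh, iff_false]
              intro h; exact hcP' (Finset.mem_inter.1 h).2
          refine ⟨hφQ, ?_, ?_⟩
          · rw [Nat.even_iff, hsplit _ hφS, hφP, ← hB, if_neg hφc]
            by_cases hh : (B ∩ P).card % 2 = 1
            · rw [if_pos (hφc'.2 hh)]; omega
            · rw [if_neg (fun h => hh (hφc'.1 h))]; omega
          · have e0 : symmDiff (symmDiff A (φ A)) D = symmDiff B (φ A) := by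
              rw [hB, symmDiff_assoc, symmDiff_comm (φ A) D, ← symmDiff_assoc]
            rw [e0]
            have hsub : symmDiff B (φ A) ⊆ S := by
              intro w hw
              simp only [mem_symmDiff] at hw
              rcases hw with hw | hw
              · exact hBS hw.1
              · exact hφS hw.1
            rw [hsplit _ hsub]
            have e1 : symmDiff B (φ A) ∩ P = ∅ := by
              ext w
              have h1 : w ∈ φ A ∩ P ↔ w ∈ B ∩ P := by rw [hφP, hB]
              simp only [mem_inter] at h1
              simp only [mem_inter, mem_symmDiff, Finset.notMem_empty, iff_false]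
              tauto
            rw [e1, Finset.card_empty]
            have e2 : c ∈ symmDiff B (φ A) ↔ c ∈ B := by
              simp only [mem_symmDiff]; tauto
            have e3 : c' ∈ symmDiff B (φ A) ↔ ¬ (c' ∈ B ↔ (B ∩ P).card % 2 = 1) := by
              simp only [mem_symmDiff, hφc']; tauto
            have hBc := hsplit B hBS
            simp only [e2, e3]
            by_cases b1 : c ∈ B <;> by_cases b2 : c' ∈ B <;>
              by_cases b3 : (B ∩ P).card % 2 = 1 <;> simp [b1, b2, b3] at hBc ⊢ <;> omega
        · intro A hA hAe B hB hBe h
          have h1 : A ∩ P = B ∩ P := by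
            have h2 : (symmDiff A D) ∩ P = (symmDiff B D) ∩ P := by rw [← hφP A, ← hφP B, h]
            ext w
            have h3 : w ∈ (symmDiff A D) ∩ P ↔ w ∈ (symmDiff B D) ∩ P := by rw [h2]
            simp only [mem_inter, mem_symmDiff] at h3 ⊢
            tauto
          have hAS : A ⊆ S := hA.trans Finset.subset_union_left
          have hBS : B ⊆ S := hB.trans Finset.subset_union_left
          have hcA : c' ∉ A := fun h => hcm'.2 (hA h)
          have hcB : c' ∉ B := fun h => hcm'.2 (hB h)
          have k1 := hsplit A hAS
          have k2 := hsplit B hBS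
          rw [if_neg hcA] at k1
          rw [if_neg hcB] at k2
          rw [h1] at k1
          rw [Nat.even_iff] at hAe hBe
          have hcAB : c ∈ A ↔ c ∈ B := by
            by_cases a1 : c ∈ A <;> by_cases a2 : c ∈ B <;> simp [a1, a2] at k1 k2 ⊢ <;> omega
          ext w
          constructor
          · intro hw
            rcases (hQm w).1 (hA hw) with h2 | h2
            · have : w ∈ A ∩ P := Finset.mem_inter.2 ⟨hw, h2⟩
              rw [h1] at this
              exact (Finset.mem_inter.1 this).1
            · rw [h2] at hw ⊢; exact hcAB.1 hw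
          · intro hw
            rcases (hQm w).1 (hB hw) with h2 | h2
            · have : w ∈ B ∩ P := Finset.mem_inter.2 ⟨hw, h2⟩
              rw [← h1] at this
              exact (Finset.mem_inter.1 this).1
            · rw [h2] at hw ⊢; exact hcAB.2 hw

end Pool.Agent.H29.Diam
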